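import Mathlib
import Pool.Agent.Lib.helper23.VorA

set_option autoImplicit false

namespace Pool.Agent.Results.MP_2b3d15_co.Main

/-- the Voronoi cell of `v` with respect to the sites `T` -/
def cell {V : Type} (G : SimpleGraph V) (T : Finset V) (v : V) : Set V :=
  {u | ∀ w ∈ T, G.dist u v ≤ G.dist u w}

/-- the number of sites with an infinite cell -/
noncomputable def infCells {V : Type} (G : SimpleGraph V) (T : Finset V) : ℕ :=
  {v | v ∈ T ∧ (cell G T v).Infinite}.ncard

/-- balls are bounded by a linear function of the radius -/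
def LinearGrowth {V : Type} (G : SimpleGraph V) : Prop :=
  ∃ a b : ℕ, ∀ (v : V) (r : ℕ), {u | G.dist v u ≤ r}.encard ≤ (a * r + b : ℕ)

theorem result (V : Type) [Infinite V] (G : SimpleGraph V) (hc : G.Connected)
    (hg : ¬ LinearGrowth G) (n : ℕ) : ∃ T : Finset V, T.Nonempty ∧ n ≤ infCells G T := by
  by_contra h
  refine hg ⟨2 * n, n, fun v r => not_lt.1 fun h1 => h ?_⟩
  obtain ⟨S, s1, s2⟩ := Set.exists_subset_encard_eq (Order.add_one_le_of_lt h1)
  obtain ⟨S, rfl⟩ := (Set.finite_of_encard_eq_coe (k := 2 * n * r + n + 1) s2).exists_finset_coe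
  rw [Set.encard_coe_eq_coe_finsetCard] at s2
  have s3 : S.card = 2 * n * r + n + 1 := by exact_mod_cast s2
  obtain ⟨T, t1, t2⟩ := Lib.helper23.Vor.many hc n r v S
    (fun w hw => SimpleGraph.dist_comm.trans_le (s1 hw)) (by nlinarith)
  exact ⟨T, t1, t2.le⟩

end Pool.Agent.Results.MP_2b3d15_co.Main
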